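import Mathlib

open scoped InnerProductSpace
open Filter Topology

namespace Pool.Agent.H.MP_3f5b22_an

abbrev V := {l : List (Fin 3) // l.IsChain (· ≠ ·)}
noncomputable abbrev K := lp (fun _ : V => ℂ) 2
noncomputable abbrev A := K →L[ℂ] K

def s (i : Fin 3) (x : V) : V :=
  if h : x.1.head? = some i then ⟨x.1.tail, x.2.tail⟩
  else ⟨i :: x.1, List.IsChain.cons x.2 (fun y hy e => h (by rw [e]; exact hy))⟩

lemma s_eq (i : Fin 3) (t : List (Fin 3)) (h) : (s i ⟨i :: t, h⟩).1 = t := by simp [s]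
lemma s_ne (i : Fin 3) (x : V) (h : x.1.head? ≠ some i) : (s i x).1 = i :: x.1 := by simp [s, h]
lemma s_s (i : Fin 3) (x : V) : s i (s i x) = x := by
  obtain ⟨l, hl⟩ := x
  by_cases h : l.head? = some i
  · rcases l with _ | ⟨c, t⟩
    · simp at h
    · obtain rfl : c = i := by simpa using h
      apply Subtype.ext
      rw [s_ne, s_eq]
      rw [s_eq]
      intro e
      exact (List.isChain_cons.1 hl).1 c e rfl
  · apply Subtype.ext
    have : s i ⟨l, hl⟩ = ⟨i :: l, List.IsChain.cons hl (fun y hy e => h (by rw [e]; exact hy))⟩ := by simp [s, h]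
    rw [this, s_eq]

lemma mem2 {f : V → ℂ} : Memℓp f 2 ↔ Summable (fun p => ‖f p‖ ^ 2) := by
  rw [memℓp_gen_iff (by norm_num)]; norm_num

lemma norm_sq (u : K) : HasSum (fun p => ‖u p‖ ^ 2) (‖u‖ ^ 2) := by
  have := lp.hasSum_norm (p := 2) (by norm_num) u
  simpa using this

noncomputable def U (σ : V ≃ V) : A :=
  LinearMap.mkContinuous
    { toFun := fun u => ⟨fun p => u (σ p), mem2.2
        ((σ.summable_iff (f := fun p => ‖u p‖ ^ 2)).2 (norm_sq u).summable)⟩
      map_add' := fun u v => by ext p; simp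
      map_smul' := fun c u => by ext p; simp } 1 (fun u => by
        rw [one_mul]
        refine le_of_sq_le_sq ?_ (norm_nonneg _)
        have h1 : HasSum (fun p => ‖u (σ p)‖ ^ 2) (‖u‖ ^ 2) := (σ.hasSum_iff (f := fun p => ‖u p‖ ^ 2)).2 (norm_sq u)
        exact hasSum_le (fun p => le_rfl) (norm_sq _) h1)

lemma U_apply (σ) (u : K) (p : V) : U σ u p = u (σ p) := rfl

lemma star_U (σ : V ≃ V) : star (U σ) = U σ.symm := by
  rw [ContinuousLinearMap.star_eq_adjoint]
  symm
  rw [ContinuousLinearMap.eq_adjoint_iff]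
  intro u v
  rw [lp.inner_eq_tsum, lp.inner_eq_tsum, ← σ.tsum_eq]
  simp [U_apply]

def se (i : Fin 3) : V ≃ V := ⟨s i, s i, s_s i, s_s i⟩

noncomputable def a : Fin 3 → ℝ := ![√2, 1, 1]

noncomputable def H : A := ∑ i, (a i : ℂ) • U (se i)
lemma H_apply (u : K) (x : V) : H u x = ∑ i, (a i : ℂ) * u (s i x) := by
  simp only [H, Fin.sum_univ_three]; rfl
lemma H_sa : IsSelfAdjoint H := by
  have : ∀ i, star (U (se i)) = U (se i) := fun i => star_U _
  unfold H
  rw [IsSelfAdjoint, star_sum]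
  refine Finset.sum_congr rfl fun i _ => ?_
  rw [star_smul, this, Complex.star_def, Complex.conj_ofReal]

lemma im_inner (v : K) : (⟪v, H v⟫_ℂ).im = 0 := by
  have := H_sa.isSymmetric v v
  have h2 := inner_conj_symm (𝕜 := ℂ) v (H v)
  have h3 : (starRingEnd ℂ) ⟪v, H v⟫_ℂ = ⟪v, H v⟫_ℂ := by
    rw [inner_conj_symm]; exact this
  exact Complex.conj_eq_iff_im.1 h3

lemma uniq {z : ℂ} (hz : z.im ≠ 0) (v : K) (h : ∀ x, v x ≠ 0 → H v x = z * v x) : v = 0 := by
  have e : ⟪v, H v⟫_ℂ = z * ((‖v‖ ^ 2 : ℝ) : ℂ) := by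
    have : ⟪v, z • v⟫_ℂ = z * ((‖v‖ ^ 2 : ℝ) : ℂ) := by
      rw [inner_smul_right, inner_self_eq_norm_sq_to_K]; push_cast; rfl
    rw [← this, lp.inner_eq_tsum, lp.inner_eq_tsum]
    congr 1; ext x
    by_cases hx : v x = 0
    · simp [hx]
    · rw [h x hx]; rfl
  have := im_inner v
  rw [e, Complex.mul_im, Complex.ofReal_im, Complex.ofReal_re] at this
  have h2 : ‖v‖ ^ 2 = 0 := by
    rcases mul_eq_zero.1 (show z.im * ‖v‖ ^ 2 = 0 by linarith) with h | h
    · exact absurd h hz
    · exact h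
  simpa using h2

def rt : V := ⟨[], List.IsChain.nil⟩

def ap (i : Fin 3) (x : V) : V :=
  if h : x.1.getLast? = some i then x
  else ⟨x.1 ++ [i], List.IsChain.append x.2 (List.isChain_singleton _) (fun y hy w hw e => h (by
    simp at hw; rw [hw, ← e]; exact hy))⟩
lemma ap_val (i : Fin 3) (x : V) (h : x.1.getLast? ≠ some i) : (ap i x).1 = x.1 ++ [i] := by simp [ap, h]

lemma branch {z : ℂ} (hz : z.im ≠ 0) (u : K) (hu : ∀ x, x ≠ rt → H u x = z * u x) (i j : Fin 3) (hij : j ≠ i) :
    u rt * u (s j (s i rt)) = u (s i rt) * u (s j rt) := by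
  set D : Set V := {x | x.1.getLast? = some j}
  have hD : ∀ x ∈ D, x.1.getLast? ≠ some i := fun x hx e => hij (by
    have : x.1.getLast? = some j := hx
    rw [e] at this; exact (Option.some.inj this).symm)
  have m1 : Memℓp (D.indicator fun x => u (ap i x)) 2 := by
    rw [mem2]
    have hinj : Function.Injective (fun x : D => ap i x) := fun x y e => by
      have := congrArg Subtype.val e
      simp only at this
      rw [ap_val _ _ (hD _ x.2), ap_val _ _ (hD _ y.2)] at this
      exact Subtype.ext (Subtype.ext (List.append_cancel_right this))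
    have h1 := (norm_sq u).summable.comp_injective hinj
    have h2 := summable_subtype_iff_indicator (f := fun x => ‖u (ap i x)‖ ^ 2) (s := D) |>.1 h1
    refine h2.congr fun x => ?_
    by_cases hx : x ∈ D <;> simp [hx]
  have m2 : Memℓp (D.indicator fun x => u x) 2 := by
    rw [mem2]
    refine ((norm_sq u).summable.indicator D).congr fun x => ?_
    by_cases hx : x ∈ D <;> simp [hx]
  let v : K := u rt • ⟨_, m1⟩ - u (s i rt) • ⟨_, m2⟩
  have va : ∀ x, v x = if x ∈ D then u rt * u (ap i x) - u (s i rt) * u x else 0 := fun x => by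
    show u rt * D.indicator _ x - u (s i rt) * D.indicator _ x = _
    by_cases hx : x ∈ D <;> simp [hx]
  have irt : (s i rt).1 = [i] := by simp [s, rt]
  have key : ∀ x ∈ D, ∀ k, v (s k x) = u rt * u (s k (ap i x)) - u (s i rt) * u (s k x) := by
    rintro ⟨l, hl⟩ hx k
    have hx' : l.getLast? = some j := hx
    rcases l with _ | ⟨c, t⟩
    · simp at hx'
    have hap : ap i ⟨c :: t, hl⟩ = ⟨c :: (t ++ [i]), by
        have := (ap i ⟨c :: t, hl⟩).2
        rwa [ap_val _ _ (hD _ hx)] at this⟩ := Subtype.ext (ap_val _ _ (hD _ hx))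
    rw [va]
    by_cases hk : c = k
    · subst hk
      rcases t with _ | ⟨d, t⟩
      · have e1 : s c ⟨[c], hl⟩ = rt := Subtype.ext (s_eq _ _ _)
        have e2 : s c (ap i ⟨[c], hl⟩) = s i rt := Subtype.ext (by rw [hap, s_eq, irt]; rfl)
        rw [e1, e2, if_neg (by simp [D, rt])]; ring
      · have e0 : s c ⟨c :: d :: t, hl⟩ ∈ D := by
          show (s c _).1.getLast? = some j
          rw [s_eq]; simpa using hx'
        rw [if_pos e0]
        congr 2
        refine congrArg u (Subtype.ext ?_)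
        rw [ap_val _ _ (hD _ e0), hap, s_eq, s_eq]
    · have n1 : (⟨c :: t, hl⟩ : V).1.head? ≠ some k := by simpa using hk
      have e0 : s k ⟨c :: t, hl⟩ ∈ D := by
        show (s k _).1.getLast? = some j
        rw [s_ne _ _ n1]; simpa using hx'
      rw [if_pos e0]
      congr 2
      refine congrArg u (Subtype.ext ?_)
      rw [ap_val _ _ (hD _ e0), s_ne _ _ n1, hap, s_ne _ _ (by simpa using hk)]
      rfl
  have hv : v = 0 := uniq hz v fun x hx => by
    have hxD : x ∈ D := by
      by_contra h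
      exact hx (by rw [va, if_neg h])
    have n1 : x ≠ rt := fun e => by
      have : x.1.getLast? = some j := hxD
      simp [e, rt] at this
    have n2 : ap i x ≠ rt := fun e => by
      have := congrArg Subtype.val e
      rw [ap_val _ _ (hD _ hxD)] at this
      simp [rt] at this
    have h1 := hu x n1
    have h2 := hu _ n2
    rw [H_apply] at h1 h2 ⊢
    simp only [key x hxD]
    rw [va, if_pos hxD]
    simp only [Fin.sum_univ_three] at h1 h2 ⊢
    linear_combination u rt * h2 - u (s i rt) * h1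
  have jD : s j rt ∈ D := by simp [D, s, rt]
  have := va (s j rt)
  rw [hv, if_pos jD] at this
  have e : ap i (s j rt) = s j (s i rt) := by
    apply Subtype.ext
    rw [ap_val _ _ (hD _ jD), s_ne j (s i rt) (by rw [irt]; simpa using hij.symm), irt]
    simp [s, rt]
  rw [e] at this
  simp at this
  linear_combination -this

def sw (x : V) : V := ⟨x.1.map (Equiv.swap 1 2), by
  rw [List.isChain_map]
  exact x.2.imp fun a b h e => h ((Equiv.swap 1 2).injective e)⟩
lemma sw_sw (x : V) : sw (sw x) = x := by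
  apply Subtype.ext; simp [sw, Function.comp_def]
lemma sw_s (i : Fin 3) (x : V) : sw (s i x) = s (Equiv.swap 1 2 i) (sw x) := by
  obtain ⟨l, hl⟩ := x
  apply Subtype.ext
  rcases l with _ | ⟨c, t⟩
  · simp [sw, s]
  · by_cases h : c = i
    · simp [sw, s, h]
    · simp [sw, s, h]

lemma symm12 {z : ℂ} (hz : z.im ≠ 0) (u : K) (hu : ∀ x, x ≠ rt → H u x = z * u x)
    (h0 : H u rt = z * u rt + 1) : u (s 1 rt) = u (s 2 rt) := by
  let w : K := U ⟨sw, sw, sw_sw, sw_sw⟩ u
  have wa : ∀ x, w x = u (sw x) := fun x => rfl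
  have Hw : ∀ x, H w x = H u (sw x) := fun x => by
    simp only [H_apply, wa, sw_s, Fin.sum_univ_three]
    simp [a, Equiv.swap_apply_def]
    ring
  have srt : sw rt = rt := rfl
  have hv : u - w = 0 := uniq hz _ fun x _ => by
    rw [map_sub]
    show H u x - H w x = z * (u x - w x)
    rw [Hw, wa]
    by_cases hx : x = rt
    · rw [hx, srt]; ring
    · rw [hu x hx, hu (sw x) (fun e => hx (by rw [← sw_sw x, e, srt]))]; ring
  have := congrArg (fun v : K => v (s 1 rt)) hv
  have e : sw (s 1 rt) = s 2 rt := by rw [sw_s, srt]; rfl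
  simp only [lp.coeFn_sub, Pi.sub_apply, wa, e, lp.coeFn_zero, Pi.zero_apply] at this
  exact sub_eq_zero.1 this

lemma cubic {z : ℂ} (hz : z.im ≠ 0) (u : K) (hu : ∀ x, x ≠ rt → H u x = z * u x)
    (h0 : H u rt = z * u rt + 1) :
    (z ^ 4 - 12 * z ^ 2 + 4) * u rt ^ 3 - 2 * z * (z ^ 2 - 6) * u rt ^ 2 - z ^ 2 * u rt + 2 * z = 0 := by
  have hG : u rt ≠ 0 := fun e => by
    have : u = 0 := uniq hz u fun x hx => hu x (fun h => hx (h ▸ e))
    rw [this] at h0
    simp at h0
  have n : ∀ i, s i rt ≠ rt := fun i e => by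
    have := congrArg Subtype.val e
    simp [s, rt] at this
  have e0 := hu _ (n 0)
  have e1 := hu _ (n 1)
  have b01 := branch hz u hu 0 1 (by decide)
  have b02 := branch hz u hu 0 2 (by decide)
  have b10 := branch hz u hu 1 0 (by decide)
  have b12 := branch hz u hu 1 2 (by decide)
  have sy := symm12 hz u hu h0
  rw [H_apply] at e0 e1 h0
  simp only [Fin.sum_univ_three, s_s] at e0 e1 h0
  simp only [a, Matrix.cons_val_zero, Matrix.cons_val_one, Matrix.cons_val, Complex.ofReal_one, one_mul] at e0 e1 h0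
  have r2 : ((√2 : ℝ) : ℂ) ^ 2 = 2 := by rw [← Complex.ofReal_pow, Real.sq_sqrt (by norm_num)]; norm_num
  set r : ℂ := ((√2 : ℝ) : ℂ)
  set G := u rt
  rw [← sy] at h0 b02 b12
  set x0 := u (s 0 rt)
  set x1 := u (s 1 rt)
  have q0 : (r * x0) ^ 2 - r * x0 = 2 * G ^ 2 := by
    linear_combination -r * G * e0 + r * b01 + r * b02 + r * x0 * h0 + G ^ 2 * r2
  have q1 : x1 ^ 2 - x1 = G ^ 2 := by
    linear_combination -G * e1 + r * b10 + b12 + x1 * h0
  have hy : r * x0 = z * G + 1 - 2 * x1 := by linear_combination h0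
  rw [hy] at q0
  apply mul_left_cancel₀ hG
  have l1 : x1 * (2 + 4 * z * G - 4) = (z * G + 1) ^ 2 - (z * G + 1) + 2 * G ^ 2 := by
    linear_combination -q0 + 4 * q1
  set m := 2 + 4 * z * G - 4
  set c := (z * G + 1) ^ 2 - (z * G + 1) + 2 * G ^ 2
  have l2 : c ^ 2 - c * m = G ^ 2 * m ^ 2 := by
    rw [← l1]; linear_combination m ^ 2 * q1
  simp only [m, c] at l2
  linear_combination l2

end Pool.Agent.H.MP_3f5b22_an
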