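import Mathlib

open Polynomial

namespace Pool.Agent.H.MP_3f5b22_an

noncomputable def P : ℂ[X][X] :=
  C (X ^ 4 - 12 * X ^ 2 + 4) * X ^ 3 - C (2 * X * (X ^ 2 - 6)) * X ^ 2 - C (X ^ 2) * X + C (2 * X)

lemma c_ne : ¬ (X : ℂ[X]) ∣ X ^ 4 - 12 * X ^ 2 + 4 := by
  rw [X_dvd_iff]; simp
lemma c0 : (X ^ 4 - 12 * X ^ 2 + 4 : ℂ[X]) ≠ 0 := fun h => c_ne (h ▸ dvd_zero _)

lemma P_deg : P.degree = 3 := by
  unfold P
  compute_degree!
  exact c0
lemma P_nat : P.natDegree = 3 := natDegree_eq_of_degree_eq_some P_deg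
lemma co3 : P.coeff 3 = X ^ 4 - 12 * X ^ 2 + 4 := by
  simp only [P, coeff_add, coeff_sub, coeff_C_mul, coeff_X_pow, coeff_X, coeff_C]; simp
lemma co2 : P.coeff 2 = -(2 * X * (X ^ 2 - 6)) := by
  simp only [P, coeff_add, coeff_sub, coeff_C_mul, coeff_X_pow, coeff_X, coeff_C]; simp
lemma co1 : P.coeff 1 = -(X ^ 2) := by
  simp only [P, coeff_add, coeff_sub, coeff_C_mul, coeff_X_pow, coeff_X, coeff_C]; simp
lemma co0 : P.coeff 0 = 2 * X := by
  simp only [P, coeff_add, coeff_sub, coeff_C_mul, coeff_X_pow, coeff_X, coeff_C]; simp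

lemma P_prim : P.IsPrimitive := by
  rw [isPrimitive_iff_isUnit_of_C_dvd]
  intro r hr
  rw [C_dvd_iff_dvd_coeff] at hr
  have h3 := hr 3
  have h0 := hr 0
  rw [co3] at h3
  rw [co0] at h0
  have h4 : r ∣ C 8 := by
    have e : (C 8 : ℂ[X]) = 2 * (X ^ 4 - 12 * X ^ 2 + 4) - (2 * X) * (X ^ 3 - 12 * X) := by
      rw [show (C 8 : ℂ[X]) = 8 from rfl]; ring
    rw [e]
    exact dvd_sub (h3.mul_left _) (h0.mul_right _)
  exact isUnit_of_dvd_unit h4 (isUnit_C.2 (IsUnit.mk0 _ (by norm_num)))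

lemma P_irr : Irreducible (P.map (algebraMap ℂ[X] (RatFunc ℂ))) := by
  rw [← P_prim.irreducible_iff_irreducible_map_fraction_map]
  have hp : (Ideal.span {(X : ℂ[X])}).IsPrime := (Ideal.span_singleton_prime X_ne_zero).2 prime_X
  refine irreducible_of_eisenstein_criterion hp ?_ ?_ (by rw [P_deg]; norm_num) ?_ P_prim
  · rw [leadingCoeff, P_nat, co3, Ideal.mem_span_singleton]; exact c_ne
  · intro n hn
    rw [P_deg] at hn
    have : n < 3 := by exact_mod_cast hn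
    rw [Ideal.mem_span_singleton]
    interval_cases n
    · rw [co0]; exact dvd_mul_left _ _
    · rw [co1]; exact (dvd_pow_self _ two_ne_zero).neg_right
    · rw [co2]; exact ((dvd_mul_left _ _).mul_right _).neg_right
  · rw [co0, Ideal.span_singleton_pow, Ideal.mem_span_singleton, X_pow_dvd_iff]
    intro h
    have := h 1 (by norm_num)
    simp at this

abbrev FF := AdjoinRoot (P.map (algebraMap ℂ[X] (RatFunc ℂ)))

lemma ram : ∃ Q : Ideal (integralClosure ℂ[X] FF), Q.IsMaximal ∧ Q.LiesOver (Ideal.span {(X : ℂ[X])}) ∧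
    3 ≤ Q.ramificationIdx ℂ[X] := by
  haveI : Fact (Irreducible (P.map (algebraMap ℂ[X] (RatFunc ℂ)))) := ⟨P_irr⟩
  haveI : FiniteDimensional (RatFunc ℂ) FF := (AdjoinRoot.powerBasis P_irr.ne_zero).finite
  haveI : CharZero (RatFunc ℂ) := algebraRat.charZero _
  haveI : IsDedekindDomain (integralClosure ℂ[X] FF) := integralClosure.isDedekindDomain ℂ[X] (RatFunc ℂ) FF
  have hinj : Function.Injective (algebraMap ℂ[X] FF) := by
    rw [IsScalarTower.algebraMap_eq ℂ[X] (RatFunc ℂ) FF]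
    exact (algebraMap (RatFunc ℂ) FF).injective.comp (IsFractionRing.injective ℂ[X] (RatFunc ℂ))
  have hinj' : Function.Injective (algebraMap ℂ[X] (integralClosure ℂ[X] FF)) := fun x y h =>
    hinj (congrArg Subtype.val h)
  haveI : FaithfulSMul ℂ[X] (integralClosure ℂ[X] FF) := (faithfulSMul_iff_algebraMap_injective _ _).2 hinj'
  have hp : (Ideal.span {(X : ℂ[X])}).IsMaximal := PrincipalIdealRing.isMaximal_of_irreducible irreducible_X
  obtain ⟨Q, hQ, hQo⟩ := Ideal.exists_maximal_ideal_liesOver_of_isIntegral (S := integralClosure ℂ[X] FF)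
    (Ideal.span {(X : ℂ[X])})
  refine ⟨Q, hQ, hQo, ?_⟩
  set zF : FF := algebraMap ℂ[X] FF X with hz
  set w : FF := AdjoinRoot.root _ with hw
  have hroot : (zF ^ 4 - 12 * zF ^ 2 + 4) * w ^ 3 - 2 * zF * (zF ^ 2 - 6) * w ^ 2 - zF ^ 2 * w + 2 * zF = 0 := by
    have h1 : aeval w (P.map (algebraMap ℂ[X] (RatFunc ℂ))) = 0 := by
      rw [hw, AdjoinRoot.aeval_eq, AdjoinRoot.mk_self]
    rw [aeval_map_algebraMap] at h1
    simp only [P, map_add, map_sub, map_mul, aeval_C, map_pow, aeval_X, map_ofNat] at h1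
    exact h1
  have hy : IsIntegral ℂ[X] ((zF ^ 4 - 12 * zF ^ 2 + 4) * w) := by
    refine ⟨X ^ 3 - C (2 * X * (X ^ 2 - 6)) * X ^ 2 - C (X ^ 2 * (X ^ 4 - 12 * X ^ 2 + 4)) * X
      + C (2 * X * (X ^ 4 - 12 * X ^ 2 + 4) ^ 2), ?_, ?_⟩
    · monicity!
    · rw [← aeval_def]
      simp only [map_add, map_sub, map_mul, aeval_C, map_pow, aeval_X, map_ofNat, ← hz]
      linear_combination (zF ^ 4 - 12 * zF ^ 2 + 4) ^ 2 * hroot
  set y : integralClosure ℂ[X] FF := ⟨_, hy⟩ with hyd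
  set z : integralClosure ℂ[X] FF := algebraMap ℂ[X] _ X with hzd
  have e : (2 * (z ^ 2 - 6) * y ^ 2 + z * (z ^ 4 - 12 * z ^ 2 + 4) * y - 2 * (z ^ 4 - 12 * z ^ 2 + 4) ^ 2) * z = y ^ 3 := by
    apply Subtype.val_injective
    have hzz : (z : FF) = zF := rfl
    have hyy : (y : FF) = (zF ^ 4 - 12 * zF ^ 2 + 4) * w := rfl
    have n2 : ((2 : integralClosure ℂ[X] FF) : FF) = 2 := rfl
    have n4 : ((4 : integralClosure ℂ[X] FF) : FF) = 4 := rfl
    have n6 : ((6 : integralClosure ℂ[X] FF) : FF) = 6 := rfl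
    have n12 : ((12 : integralClosure ℂ[X] FF) : FF) = 12 := rfl
    push_cast
    rw [hzz, hyy, n2, n4, n6, n12]
    linear_combination (-(zF ^ 4 - 12 * zF ^ 2 + 4) ^ 2) * hroot
  have zQ : z ∈ Q := (Ideal.mem_of_liesOver Q (Ideal.span {(X : ℂ[X])}) X).1 (Ideal.mem_span_singleton_self _)
  have yQ : y ∈ Q := hQ.isPrime.mem_of_pow_mem 3 (by rw [← e]; exact Q.mul_mem_left _ zQ)
  have z3 : z ∈ Q ^ 3 := by
    refine (Ideal.IsMaximal.mul_mem_pow Q (by rw [e]; exact Ideal.pow_mem_pow yQ 3)).resolve_left fun h => ?_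
    have h32 : (32 : integralClosure ℂ[X] FF) ∈ Q := by
      have : (32 : integralClosure ℂ[X] FF) = (2 * (z ^ 2 - 6) * y + z * (z ^ 4 - 12 * z ^ 2 + 4)) * y
          - 2 * (z ^ 3 - 12 * z) * (z ^ 4 - 12 * z ^ 2 + 8) * z
          - (2 * (z ^ 2 - 6) * y ^ 2 + z * (z ^ 4 - 12 * z ^ 2 + 4) * y - 2 * (z ^ 4 - 12 * z ^ 2 + 4) ^ 2) := by ring
      rw [this]
      exact Q.sub_mem (Q.sub_mem (Q.mul_mem_left _ yQ) (Q.mul_mem_left _ zQ)) h
    have hu : IsUnit (32 : integralClosure ℂ[X] FF) := by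
      have : IsUnit (algebraMap ℂ[X] (integralClosure ℂ[X] FF) (C 32)) :=
        (isUnit_C.2 (IsUnit.mk0 _ (by norm_num))).map _
      rwa [show (C 32 : ℂ[X]) = 32 from rfl, map_ofNat] at this
    exact hQ.ne_top (Q.eq_top_of_isUnit_mem h32 hu)
  have hm : (Ideal.span {(X : ℂ[X])}).map (algebraMap ℂ[X] (integralClosure ℂ[X] FF)) = Ideal.span {z} := by
    rw [Ideal.map_span]; simp [hzd]
  have hz0 : z ≠ 0 := fun h => X_ne_zero (hinj' (by rw [map_zero]; exact h))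
  have hne : (Ideal.span {(X : ℂ[X])}).map (algebraMap ℂ[X] (integralClosure ℂ[X] FF)) ≠ ⊥ := by
    rw [hm]; simpa using hz0
  rw [Ideal.IsDedekindDomain.ramificationIdx_eq_multiplicity (Ideal.span {(X : ℂ[X])}) Q hne]
  refine (FiniteMultiplicity.of_not_isUnit (by simpa using hQ.ne_top) hne).le_multiplicity_of_pow_dvd ?_
  rw [Ideal.dvd_iff_le, hm, Ideal.span_singleton_le_iff_mem]
  exact z3

end Pool.Agent.H.MP_3f5b22_an
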